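import Pool.Agent.Lib.MP_06e9af_co.Twig.Piv

/-! Balanced colourings have many induced paths on three vertices. -/

set_option autoImplicit false

namespace Pool.Agent.Lib.MP_06e9af_co.Twig

open Finset Pool.Agent.Lib.MP_06e9af_co

variable {V : Type*} [Fintype V] [DecidableEq V] {R B : SimpleGraph V}

open Classical in
lemma half_angles (hc : Col R B) :
    100 * ((univ.sigma fun a => nb R a ×ˢ nb B a).filter fun s => R.Adj s.2.1 s.2.2).card ≤
      100 * (Ch R).card + Fintype.card V ^ 3 := by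
  set L := (univ.filter fun c => 10 * (nb R c).card < Fintype.card V).sigma
    fun c => nb R c ×ˢ nb R c with hL
  have h1 : ((univ.sigma fun a => nb R a ×ˢ nb B a).filter fun s => R.Adj s.2.1 s.2.2).card ≤
      (Ch R ∪ L.image fun s => (s.1, s.2)).card := by
    refine card_le_card_of_injOn (fun s => (s.2.1, s.1, s.2.2)) ?_ ?_
    · rintro ⟨a, x, y⟩ h
      simp only [coe_filter, mem_sigma, mem_univ, true_and, mem_product, mem_nb,
        Set.mem_ofPred_eq] at h
      obtain ⟨⟨a1, a2⟩, a3⟩ := h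
      refine mem_coe.mpr (mem_union.mpr ?_)
      by_cases c : Fintype.card V ≤ 10 * (nb R x).card
      · exact Or.inl (mem_Ch.mpr ⟨a1.symm, a3, a2.ne, fun h => hc.not_both h a2, c⟩)
      · exact Or.inr (mem_image.mpr ⟨⟨x, a, y⟩, mem_sigma.mpr ⟨mem_filter.mpr
          ⟨mem_univ _, not_le.mp c⟩, mem_product.mpr ⟨mem_nb.mpr a1.symm, mem_nb.mpr a3⟩⟩, rfl⟩)
    · rintro ⟨a, x, y⟩ - ⟨a', x', y'⟩ - h
      simp only [Prod.mk.injEq] at h
      obtain ⟨rfl, rfl, rfl⟩ := h
      rfl
  have h2 : 100 * L.card ≤ Fintype.card V ^ 3 := by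
    rw [hL, card_sigma, mul_sum]
    refine (sum_le_card_nsmul _ _ (Fintype.card V ^ 2) fun c hc => ?_).trans ?_
    · have := (mem_filter.mp hc).2
      rw [card_product]
      nlinarith
    · rw [smul_eq_mul, pow_succ' _ 2]
      exact Nat.mul_le_mul_right _ (card_le_univ _)
  have h3 := card_union_le (Ch R) (L.image fun s => (s.1, s.2))
  have h4 := card_image_le (s := L) (f := fun s => (s.1, s.2))
  omega

lemma angles (hc : Col R B) : 50 * ∑ a, (nb R a).card * (nb B a).card ≤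
    50 * ((Ch R).card + (Ch B).card) + Fintype.card V ^ 3 := by
  classical
  have h1 := half_angles hc
  have h2 := half_angles hc.symm
  have h3 : ((univ.sigma fun a => nb R a ×ˢ nb B a).filter fun s => ¬ R.Adj s.2.1 s.2.2).card ≤
      ((univ.sigma fun a => nb B a ×ˢ nb R a).filter fun s => B.Adj s.2.1 s.2.2).card := by
    refine card_le_card_of_injOn (fun s => ⟨s.1, s.2.2, s.2.1⟩) ?_ ?_
    · rintro ⟨a, x, y⟩ h
      simp only [coe_filter, mem_sigma, mem_univ, true_and, mem_product, mem_nb,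
        Set.mem_ofPred_eq] at h ⊢
      exact ⟨⟨h.1.2, h.1.1⟩,
        (hc.blue (fun e : x = y => hc.not_both h.1.1 (e ▸ h.1.2)) h.2).symm⟩
    · rintro ⟨a, x, y⟩ - ⟨a', x', y'⟩ - h
      simp only [Sigma.mk.injEq, heq_eq_eq, Prod.mk.injEq] at h
      obtain ⟨rfl, rfl, rfl⟩ := h
      rfl
  have h4 := card_filter_add_card_filter_not (s := univ.sigma fun a => nb R a ×ˢ nb B a)
    fun s => R.Adj s.2.1 s.2.2
  rw [card_sigma] at h4
  simp only [card_product] at h4
  omega

lemma cross (hc : Col R B) (X : Finset V) :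
    X.card * Xᶜ.card ≤ ∑ a ∈ X, (nb B a).card + ∑ a ∈ Xᶜ, (nb R a).card := by
  classical
  rw [← card_product, ← card_sigma, ← card_sigma]
  refine (card_le_card (t := (X.sigma fun a => nb B a).image (fun s => (s.1, s.2)) ∪
    (Xᶜ.sigma fun a => nb R a).image fun s => (s.2, s.1)) ?_).trans
    ((card_union_le _ _).trans (Nat.add_le_add card_image_le card_image_le))
  rintro ⟨a, b⟩ h
  obtain ⟨h1, h2⟩ := mem_product.mp h
  by_cases c : B.Adj a b
  · exact mem_union_left _ (mem_image.mpr ⟨⟨a, b⟩, mem_sigma.mpr ⟨h1, mem_nb.mpr c⟩, rfl⟩)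
  · exact mem_union_right _ (mem_image.mpr ⟨⟨b, a⟩, mem_sigma.mpr ⟨h2, mem_nb.mpr
      (hc.red (fun e : a = b => mem_compl.mp h2 (e ▸ h1)) c).symm⟩, rfl⟩)

omit [DecidableEq V] in
lemma side (hc : Col R B) (X : Finset V) :
    X.card * (Fintype.card V - 1) ≤ ∑ a ∈ X, (nb B a).card + ∑ a, (nb R a).card := by
  refine le_trans ?_ (Nat.add_le_add_left (sum_le_sum_of_subset (subset_univ X)) _)
  rw [← sum_add_distrib, ← smul_eq_mul]
  exact card_nsmul_le_sum _ _ _ fun a _ => (hc.deg a).trans (add_comm _ _).le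

lemma many_ch (hc : Col R B) (hN : 24 ≤ Fintype.card V)
    (hR : 3 * ∑ a, (nb R a).card ≤ 2 * Fintype.card V ^ 2)
    (hB : 3 * ∑ a, (nb B a).card ≤ 2 * Fintype.card V ^ 2) :
    Fintype.card V ^ 3 ≤ 50 * ((Ch R).card + (Ch B).card) := by
  set X := univ.filter fun a => (nb B a).card ≤ (nb R a).card with hX
  have h1 := angles hc
  have h2 := cross hc X
  have h3 := side hc X
  have h4 := side hc.symm Xᶜ
  have h5 := card_add_card_compl X
  have h6 : (Fintype.card V - 1) * (∑ a ∈ X, (nb B a).card + ∑ a ∈ Xᶜ, (nb R a).card) ≤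
      2 * ∑ a, (nb R a).card * (nb B a).card := by
    rw [← sum_add_sum_compl X, mul_add, mul_add, mul_sum, mul_sum, mul_sum, mul_sum]
    refine Nat.add_le_add (sum_le_sum fun a ha => ?_) (sum_le_sum fun a ha => ?_)
    · have := (mem_filter.mp ha).2
      have := hc.deg a
      rw [← mul_assoc]
      exact Nat.mul_le_mul_right _ (by omega)
    · have : ¬ (nb B a).card ≤ (nb R a).card := by simpa [hX] using ha
      have := hc.deg a
      rw [mul_comm (nb R a).card, ← mul_assoc]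
      exact Nat.mul_le_mul_right _ (by omega)
  obtain ⟨M, hM⟩ : ∃ M, Fintype.card V = M + 1 := ⟨Fintype.card V - 1, by omega⟩
  rw [hM] at h1 h3 h4 h5 h6 hN hR hB ⊢
  rw [Nat.add_sub_cancel] at h3 h4 h6
  generalize ∑ a ∈ X, (nb B a).card = y at *
  generalize ∑ a ∈ Xᶜ, (nb R a).card = z at *
  generalize X.card = x at *
  generalize Xᶜ.card = x' at *
  have h7 : (M + 1) ^ 2 ≤ 10 * (y + z) := by
    by_cases c1 : 4 * (M + 1) ≤ 5 * x
    · nlinarith [Nat.mul_le_mul_right M c1]
    by_cases c2 : 4 * (M + 1) ≤ 5 * x'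
    · nlinarith [Nat.mul_le_mul_right M c2]
    have d1 : x' ≤ 4 * x := by omega
    have d2 : x ≤ 4 * x' := by omega
    rw [← h5]
    nlinarith [Nat.mul_le_mul_right x' d1, Nat.mul_le_mul_right x d2]
  have h8 := Nat.mul_le_mul_left M h7
  nlinarith [Nat.mul_le_mul_right ((M + 1) ^ 2) (show 4 * (M + 1) ≤ 5 * M by omega)]

end Pool.Agent.Lib.MP_06e9af_co.Twig
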