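import Pool.Agent.Lib.MP_06e9af_co.Twig.Fin

/-!
Every branch at a vertex that is not a single leaf contains a twig centre.
-/

set_option autoImplicit false

namespace Pool.Agent.Lib.MP_06e9af_co

open Finset

variable {α : Type*} {T : SimpleGraph α} {x : α} {h : α → ℕ} {par : α → α}

/-- An injective choice of a deepest non-leaf vertex in each branch at the root. -/
lemma PS.twig_inj [Fintype α] (P : PS T x h par) : ∃ z : α → α,
    (∀ c, T.Adj x c → (¬ ∃ p, LeafOf T c p) → z c ≠ x ∧ (∃ y, LeafOf T y (z c)) ∧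
      (∀ w, T.Adj (z c) w → w = par (z c) ∨ LeafOf T w (z c))) ∧
    ∀ c c', T.Adj x c → (¬ ∃ p, LeafOf T c p) → T.Adj x c' → (¬ ∃ p, LeafOf T c' p) →
      z c = z c' → c = c' := by
  classical
  have key : ∀ c, ∃ z, T.Adj x c → (¬ ∃ p, LeafOf T c p) → par^[h z - 1] z = c ∧ z ≠ x ∧
      (∃ y, LeafOf T y z) ∧ ∀ w, T.Adj z w → w = par z ∨ LeafOf T w z := by
    intro c
    by_cases hc : T.Adj x c ∧ ¬ ∃ p, LeafOf T c p
    swap
    · exact ⟨c, fun a b => absurd ⟨a, b⟩ hc⟩
    have h1 : h c = 1 := by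
      have := P.depth_adj hc.1
      have := P.root
      omega
    obtain ⟨z, hz, hmax⟩ := (univ.filter fun u => u ≠ x ∧ par^[h u - 1] u = c ∧
      ¬ ∃ p, LeafOf T u p).exists_max_image h ⟨c, mem_filter.2 ⟨mem_univ _, hc.1.ne', by simp [h1], hc.2⟩⟩
    simp only [mem_filter, mem_univ, true_and] at hz hmax
    have child : ∀ w, w ≠ x → par w = z → LeafOf T w z := by
      intro w hw hp
      have e1 := (P.up w hw).2
      have e2 := (P.up z hz.1).2
      rw [hp] at e1
      have : ∃ p, LeafOf T w p := by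
        by_contra hn
        have := hmax w ⟨hw, by
          rw [show h w - 1 = h z - 1 + 1 by omega, Function.iterate_succ_apply, hp]
          exact hz.2.1, hn⟩
        omega
      obtain ⟨p, hp'⟩ := this
      have := hp'.2 _ (P.up w hw).1
      rw [hp] at this
      exact this ▸ hp'
    refine ⟨z, fun _ _ => ⟨hz.2.1, hz.1, ?_, fun w hw => ?_⟩⟩
    · by_contra hn
      exact hz.2.2 ⟨_, P.leaf_of_nochild hz.1 fun w hw hp => hn ⟨w, child w hw hp⟩⟩
    · rcases P.edge z w hw with ⟨-, b⟩ | ⟨a, b⟩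
      · exact Or.inl b.symm
      · exact Or.inr (child w a b)
  choose z hz using key
  exact ⟨z, fun c a b => (hz c a b).2, fun c c' a b a' b' e => by
    rw [← (hz c a b).1, e, (hz c' a' b').1]⟩

open Classical in
/-- The neighbours of `x` that are not leaves inject into the twig centres. -/
lemma twig_count {n : ℕ} {T : SimpleGraph (Fin n)} (hT : T.IsTree) (x : Fin n) :
    ∃ S : Finset (Fin n),
      (∀ c ∈ S, (∃ l, LeafOf T l c) ∧ ∃ p, ∀ u, T.Adj c u → u = p ∨ LeafOf T u c) ∧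
      ((nb T x).filter fun u => ¬ LeafOf T u x).card ≤ S.card := by
  obtain ⟨h, par, P⟩ := exists_PS hT x
  obtain ⟨z, h1, h2⟩ := P.twig_inj
  have hm : ∀ c ∈ (nb T x).filter fun u => ¬ LeafOf T u x, T.Adj x c ∧ ¬ ∃ p, LeafOf T c p := by
    intro c hc
    rw [mem_filter, mem_nb] at hc
    exact ⟨hc.1, fun ⟨p, hp⟩ => hc.2 (hp.2 x hc.1.symm ▸ hp)⟩
  refine ⟨((nb T x).filter fun u => ¬ LeafOf T u x).image z, fun c hc => ?_,
    (card_image_of_injOn fun c hc c' hc' e =>
      h2 c c' (hm c hc).1 (hm c hc).2 (hm c' hc').1 (hm c' hc').2 e).ge⟩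
  obtain ⟨u, hu, rfl⟩ := mem_image.1 hc
  obtain ⟨-, z2, z3⟩ := h1 u (hm u hu).1 (hm u hu).2
  exact ⟨z2, _, z3⟩

end Pool.Agent.Lib.MP_06e9af_co
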