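import Pool.Agent.Lib.MP_06e9af_co.Twig.Main

/-! A linear saving for trees with many twigs. -/

set_option autoImplicit false

namespace Pool.Agent.Lib.MP_06e9af_co.Twig

open Finset Pool.Agent.Lib.MP_06e9af_co

lemma leafOf_iff {α : Type*} {T : SimpleGraph α} {u c : α} (h : T.Adj c u) :
    (T.neighborSet u).ncard = 1 ↔ LeafOf T u c := by
  rw [Set.ncard_eq_one]
  refine ⟨fun ⟨a, ha⟩ => ⟨h.symm, fun w hw => ?_⟩, fun hl => ⟨c, ?_⟩⟩
  · have h1 : w ∈ T.neighborSet u := hw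
    have h2 : c ∈ T.neighborSet u := h.symm
    rw [ha] at h1 h2
    exact h1.trans h2.symm
  · ext w
    exact ⟨fun hw => hl.2 w hw, fun hw => hw ▸ hl.1⟩

lemma deg_sum {n : ℕ} {T : SimpleGraph (Fin n)} (hT : T.IsTree) :
    ∑ c, (nb T c).card ≤ 2 * n := by
  classical
  have h1 := hT.card_edgeFinset
  have h2 := T.sum_degrees_eq_twice_card_edges
  rw [Fintype.card_fin] at h1
  have : ∑ c, (nb T c).card = ∑ c, T.degree c := sum_congr rfl fun c _ => by
    rw [← SimpleGraph.card_neighborFinset_eq_degree]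
    congr 1
    ext
    simp
  omega

theorem twigs {ε : ℝ} (hε : 0 < ε) : ∃ δ : ℝ, 0 < δ ∧ ∀ (n : ℕ) (T : SimpleGraph (Fin n)),
    T.IsTree → ∀ S : Finset (Fin n), (∀ c ∈ S, (∃ l, LeafOf T l c) ∧
      ∃ p, ∀ u, T.Adj c u → u = p ∨ LeafOf T u c) → ε * n ≤ S.card →
      Arrows T ⌊(2 - δ) * n⌋₊ := by
  classical
  obtain ⟨D, hD⟩ := exists_nat_ge (4 / ε)
  rw [div_le_iff₀ hε] at hD
  set C : ℝ := 100 * 20 ^ D * D.factorial with hC
  have c1 : 1 ≤ C := by
    have : 1 ≤ 100 * 20 ^ D * D.factorial := Nat.succ_le_of_lt (by positivity)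
    rw [hC]
    exact_mod_cast this
  have c0 : 0 < C := by linarith
  have d0 : (0 : ℝ) < 20 * (D + 3) := by positivity
  obtain ⟨δ, d3, d1, d2⟩ : ∃ δ : ℝ, 0 < δ ∧ δ * (2 * C) ≤ ε ∧ δ * (20 * (D + 3)) ≤ 1 :=
    ⟨min (ε / (2 * C)) (1 / (20 * (D + 3))), by positivity,
      (le_div_iff₀ (by positivity)).mp (min_le_left _ _), (le_div_iff₀ d0).mp (min_le_right _ _)⟩
  refine ⟨δ, d3, fun n T hT S hS hn G => ?_⟩
  have n0 : (1 : ℝ) ≤ n := by exact_mod_cast Fin.pos_iff_nonempty.mpr hT.connected.nonempty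
  have D0 : (0 : ℝ) ≤ D := Nat.cast_nonneg _
  have d4 : δ ≤ 1 / 60 := by nlinarith
  obtain ⟨x, hx⟩ : S.Nonempty := card_pos.mp (by
    have : (0 : ℝ) < S.card := by nlinarith
    exact_mod_cast this)
  obtain ⟨y, hl⟩ := (hS x hx).1
  by_contra hcon
  rw [not_or] at hcon
  have hR : ¬ Cp T G := fun h => hcon.1 h.contained
  have hB : ¬ Cp T Gᶜ := fun h => hcon.2 h.contained
  have f1 := Nat.lt_floor_add_one ((2 - δ) * n)
  generalize ⌊(2 - δ) * n⌋₊ = N at *
  by_cases c : δ * n ≤ 2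
  · have n2 : (2 : ℝ) ≤ n := by
      have := one_lt_card.mpr ⟨x, mem_univ _, y, mem_univ _, hl.1.ne.symm⟩
      rw [card_univ, Fintype.card_fin] at this
      exact_mod_cast this
    rcases small hT hl (col_compl G) hR hB with h | h <;> simp only [Fintype.card_fin] at h
    · have : (N : ℝ) + 3 ≤ 2 * n := by exact_mod_cast h
      linarith
    · rw [h, Nat.cast_zero] at f1
      linarith
  have n3 : 40 * ((D : ℝ) + 3) ≤ n := by nlinarith
  have h := large hT hl (col_compl G) hR hB (D := D)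
    (by rw [Fintype.card_fin]; exact_mod_cast (by nlinarith : 20 * ((D : ℝ) + 3) ≤ N))
    (by simp only [Fintype.card_fin]; exact_mod_cast (by nlinarith : 3 * (n : ℝ) ≤ 2 * N))
  simp only [Fintype.card_fin] at h
  have s1 : S ⊆ univ.filter (Tw T D) ∪ univ.filter fun c => D ≤ (nb T c).card := fun c hc => by
    by_cases b : D ≤ (nb T c).card
    · exact mem_union_right _ (mem_filter.mpr ⟨mem_univ _, b⟩)
    · exact mem_union_left _ (mem_filter.mpr ⟨mem_univ _, (hS c hc).1, (hS c hc).2, not_le.mp b⟩)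
  have s2 : (univ.filter fun c => D ≤ (nb T c).card).card * D ≤ 2 * n := by
    refine le_trans ?_ ((sum_le_sum_of_subset
      (subset_univ (univ.filter fun c => D ≤ (nb T c).card))).trans (deg_sum hT))
    rw [← smul_eq_mul]
    exact card_nsmul_le_sum _ _ _ fun c hc => (mem_filter.mp hc).2
  have s3 := (card_le_card s1).trans (card_union_le _ _)
  generalize (univ.filter (Tw T D)).card = m at *
  generalize (univ.filter fun c => D ≤ (nb T c).card).card = k at *
  have s4 : (k : ℝ) * D ≤ 2 * n := by exact_mod_cast s2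
  have s5 : (S.card : ℝ) ≤ m + k := by exact_mod_cast s3
  have k0 : (0 : ℝ) ≤ k := Nat.cast_nonneg _
  have s6 : 2 * (k : ℝ) ≤ ε * n := by nlinarith
  have s7 : ((m : ℝ) - 2) / C < δ * n - 2 := by linarith
  rw [div_lt_iff₀ c0] at s7
  nlinarith

end Pool.Agent.Lib.MP_06e9af_co.Twig
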