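import Pool.Agent.Lib.MP_06e9af_co.Twig.Cnt
import Pool.Agent.Lib.MP_06e9af_co.Far

/-! Trees with a vertex of linear degree: many leaves at it, or many twigs. -/

set_option autoImplicit false

namespace Pool.Agent.Lib.MP_06e9af_co.Twig

open Finset Pool.Agent.Lib.MP_06e9af_co

lemma ramsey_of_floor {n : ℕ} {T : SimpleGraph (Fin n)} {δ δ' : ℝ} (h1 : δ' ≤ δ)
    (h2 : δ' ≤ 2) (h : Arrows T ⌊(2 - δ) * n⌋₊) :
    ∃ r, IsRamseyNumber T r ∧ (r : ℝ) ≤ (2 - δ') * n := by
  obtain ⟨r, hr, hle⟩ := exists_ramsey h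
  have n0 : (0 : ℝ) ≤ n := Nat.cast_nonneg _
  refine ⟨r, hr, le_trans ?_ (Nat.floor_le (a := (2 - δ') * n) (by nlinarith))⟩
  exact_mod_cast hle.trans (Nat.floor_le_floor (by nlinarith))

lemma plain {n : ℕ} {T : SimpleGraph (Fin n)} (hT : T.IsTree) {y x : Fin n} (hl : LeafOf T y x) :
    Arrows T (2 * n - 2) := fun G => by
  classical
  by_contra hcon
  rw [not_or] at hcon
  have n2 := one_lt_card.mpr ⟨x, mem_univ _, y, mem_univ _, hl.1.ne.symm⟩
  rw [card_univ, Fintype.card_fin] at n2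
  have := small hT hl (col_compl G) (fun h => hcon.1 h.contained) fun h => hcon.2 h.contained
  simp only [Fintype.card_fin] at this
  omega

open Classical in
lemma far' {n : ℕ} {T : SimpleGraph (Fin n)} (hT : T.IsTree) (x : Fin n) (L : Finset (Fin n))
    (hL : ∀ y ∈ L, LeafOf T y x) (h0 : L.Nonempty) (e : ℕ)
    (he : e + 1 ≤ (univ.filter fun v => Even (T.dist x v)).card)
    (h8 : 8 * e * n ≤ L.card ^ 2) : Arrows T (2 * n - 2 - e) := by
  rcases Nat.eq_zero_or_pos e with rfl | b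
  · exact plain hT (hL _ h0.choose_spec)
  · exact far hT x L hL e b he h8

open Classical in
theorem join {ε : ℝ} (hε : 0 < ε) : ∃ γ : ℝ, 0 < γ ∧ ∀ (n : ℕ) (T : SimpleGraph (Fin n)), T.IsTree →
      ∀ x, ε * n ≤ (T.neighborSet x).ncard →
      ∃ r, IsRamseyNumber T r ∧ (r : ℝ) ≤ 2 * n - γ * {v | Even (T.dist x v)}.ncard := by
  obtain ⟨δ, d0, h⟩ := twigs (half_pos hε)
  have K0 : (0 : ℝ) < 32 := by positivity
  obtain ⟨γ, g0, g1, g2, g4⟩ : ∃ γ : ℝ, 0 < γ ∧ γ ≤ δ ∧ γ ≤ 1 ∧ γ * 32 ≤ ε ^ 2 :=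
    ⟨min (min δ 1) (ε ^ 2 / 32), by positivity,
      (min_le_left _ _).trans (min_le_left _ _), (min_le_left _ _).trans (min_le_right _ _),
      (le_div_iff₀ K0).mp (min_le_right _ _)⟩
  refine ⟨γ, g0, fun n T hT x h1 => ?_⟩
  have n0 : (0 : ℝ) ≤ n := Nat.cast_nonneg _
  have e1 : (T.neighborSet x).ncard = (nb T x).card := by
    rw [← Set.ncard_coe_finset]
    congr 1
    ext
    simp
  have e2 : {v | Even (T.dist x v)}.ncard = (univ.filter fun v => Even (T.dist x v)).card := by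
    rw [← Set.ncard_coe_finset, coe_filter_univ]
  have e3 := card_filter_add_card_filter_not (s := nb T x) fun u => LeafOf T u x
  have t0 : 0 < (univ.filter fun v => Even (T.dist x v)).card :=
    card_pos.mpr ⟨x, mem_filter.mpr ⟨mem_univ _, by simp⟩⟩
  have t1 : (univ.filter fun v => Even (T.dist x v)).card ≤ n :=
    (card_le_univ _).trans (Fintype.card_fin n).le
  have F := far' hT x _ (fun y (hy : y ∈ (nb T x).filter fun u => LeafOf T u x) =>
    (mem_filter.mp hy).2)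
  rw [e1, ← e3, Nat.cast_add] at h1
  rw [e2]
  generalize (univ.filter fun v => Even (T.dist x v)).card = t at *
  have t2 : γ * t ≤ γ * n := by gcongr
  have t3 : (t : ℝ) ≤ n := by exact_mod_cast t1
  have t4 : γ * t ≤ t := mul_le_of_le_one_left (Nat.cast_nonneg _) g2
  by_cases c : ε / 2 * n ≤ ((nb T x).filter fun u => ¬ LeafOf T u x).card
  · obtain ⟨S, hS, hc⟩ := twig_count hT x
    obtain ⟨r, hr, hle⟩ := ramsey_of_floor g1 (by linarith)
      (h n T hT S hS (c.trans (by exact_mod_cast hc)))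
    exact ⟨r, hr, by linarith⟩
  have f1 := Nat.floor_le (a := γ * n) (by positivity)
  have f2 := Nat.lt_floor_add_one (γ * n)
  generalize ⌊γ * n⌋₊ = e at f1 f2
  have q2 : 8 * e * n ≤ ((nb T x).filter fun u => LeafOf T u x).card ^ 2 := by
    generalize ((nb T x).filter fun u => LeafOf T u x).card = l at *
    have p1 : ε / 2 * n ≤ l := by linarith
    have p2 : (ε / 2 * n) ^ 2 ≤ (l : ℝ) ^ 2 := by gcongr
    have p3 : (8 : ℝ) * e * n ≤ 8 * (γ * n) * n := by gcongr
    have p4 : γ * 32 * n ^ 2 ≤ ε ^ 2 * n ^ 2 := by gcongr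
    exact_mod_cast (by nlinarith : (8 : ℝ) * e * n ≤ (l : ℝ) ^ 2)
  have q1 : ((nb T x).filter fun u => LeafOf T u x).Nonempty := card_pos.mp (by
    have : (0 : ℝ) < n := by exact_mod_cast t0.trans_le t1
    have : (0 : ℝ) < ((nb T x).filter fun u => LeafOf T u x).card := by nlinarith
    exact_mod_cast this)
  obtain ⟨r, hr, hle⟩ := exists_ramsey (F q1 (min (t - 1) e) (by omega)
    (le_trans (by gcongr; exact min_le_right _ _) q2))
  refine ⟨r, hr, ?_⟩
  rcases (by omega : r = 0 ∨ r + 1 + t ≤ 2 * n ∨ r + 2 + e ≤ 2 * n) with b | b | b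
  · rw [b, Nat.cast_zero]
    linarith
  · have : (r : ℝ) + 1 + t ≤ 2 * n := by exact_mod_cast b
    linarith
  · have : (r : ℝ) + 2 + e ≤ 2 * n := by exact_mod_cast b
    linarith

end Pool.Agent.Lib.MP_06e9af_co.Twig
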