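import Pool.Agent.Lib.MP_06e9af_co.Twig.Join
import Pool.Agent.Lib.MP_06e9af_co.Far

/-! A linear saving for trees of linear maximum degree. -/

set_option autoImplicit false

namespace Pool.Agent.Lib.MP_06e9af_co.Twig

open Finset Pool.Agent.Lib.MP_06e9af_co

open Classical in
theorem far0 {n : ℕ} {T : SimpleGraph (Fin n)} (hT : T.IsTree) (x : Fin n)
    (L : Finset (Fin n)) (hL : ∀ y ∈ L, LeafOf T y x) (h0 : L.Nonempty) (e : ℕ)
    (he : e + 1 ≤ (univ.filter fun v => Even (T.dist x v)).card)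
    (h8 : 8 * e * n ≤ L.card ^ 2) : Arrows T (2 * n - 2 - e) := by
  rcases Nat.eq_zero_or_pos e with rfl | h
  · obtain ⟨y, hy⟩ := h0
    intro G
    by_contra hc
    rw [not_or] at hc
    have hn : 1 < n := by
      have := Fintype.one_lt_card_iff.mpr ⟨y, x, (hL y hy).1.ne⟩
      simpa using this
    have := small (V := Fin (2 * n - 2 - 0)) hT (hL y hy) (col_compl G)
      (fun h => hc.1 h.contained) (fun h => hc.2 h.contained)
    simp only [Fintype.card_fin] at this
    omega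
  · exact far hT x L hL e h (by convert he) h8

open Classical in
theorem linear
    {ε : ℝ} (hε : 0 < ε) : ∃ γ : ℝ, 0 < γ ∧ ∀ (n : ℕ) (T : SimpleGraph (Fin n)), T.IsTree →
      ∀ x, ε * n ≤ (T.neighborSet x).ncard →
      ∃ r, IsRamseyNumber T r ∧ (r : ℝ) ≤ 2 * n - γ * {v | Even (T.dist x v)}.ncard := by
  obtain ⟨δ, d0, h⟩ := twigs (half_pos hε)
  obtain ⟨K, hK⟩ : ∃ K : ℕ, K = 8 := ⟨8, rfl⟩
  have K0 : (0 : ℝ) < 4 * (K + 1) := by positivity
  obtain ⟨γ, g0, g1, g2, g4⟩ : ∃ γ : ℝ, 0 < γ ∧ γ ≤ δ ∧ γ ≤ 1 ∧ γ * (4 * (K + 1)) ≤ ε ^ 2 :=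
    ⟨min (min δ 1) (ε ^ 2 / (4 * (K + 1))), by positivity,
      (min_le_left _ _).trans (min_le_left _ _), (min_le_left _ _).trans (min_le_right _ _),
      (le_div_iff₀ K0).mp (min_le_right _ _)⟩
  refine ⟨γ, g0, fun n T hT x h1 => ?_⟩
  have n0 : (0 : ℝ) ≤ n := Nat.cast_nonneg _
  have e1 : (T.neighborSet x).ncard = (nb T x).card := by
    rw [← Set.ncard_coe_finset]
    congr 1
    ext
    simp
  have e2 : {v | Even (T.dist x v)}.ncard = (univ.filter fun v => Even (T.dist x v)).card := by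
    rw [← Set.ncard_coe_finset, coe_filter_univ]
  have e3 := card_filter_add_card_filter_not (s := nb T x) fun u => LeafOf T u x
  have t0 : 0 < (univ.filter fun v => Even (T.dist x v)).card :=
    card_pos.mpr ⟨x, mem_filter.mpr ⟨mem_univ _, by simp⟩⟩
  have t1 : (univ.filter fun v => Even (T.dist x v)).card ≤ n :=
    (card_le_univ _).trans (Fintype.card_fin n).le
  have F := far0 hT x _ (fun y (hy : y ∈ (nb T x).filter fun u => LeafOf T u x) =>
    (mem_filter.mp hy).2)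
  rw [e1, ← e3, Nat.cast_add] at h1
  rw [e2]
  generalize (univ.filter fun v => Even (T.dist x v)).card = t at *
  have t2 : γ * t ≤ γ * n := by gcongr
  have t3 : (t : ℝ) ≤ n := by exact_mod_cast t1
  have t4 : γ * t ≤ t := mul_le_of_le_one_left (Nat.cast_nonneg _) g2
  by_cases c : ε / 2 * n ≤ ((nb T x).filter fun u => ¬ LeafOf T u x).card
  · obtain ⟨S, hS, hc⟩ := twig_count hT x
    obtain ⟨r, hr, hle⟩ := ramsey_of_floor g1 (by linarith)
      (h n T hT S hS (c.trans (by exact_mod_cast hc)))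
    exact ⟨r, hr, by linarith⟩
  have f1 := Nat.floor_le (a := γ * n) (by positivity)
  have f2 := Nat.lt_floor_add_one (γ * n)
  generalize ⌊γ * n⌋₊ = e at f1 f2
  have q2 : K * e * n ≤ ((nb T x).filter fun u => LeafOf T u x).card ^ 2 := by
    generalize ((nb T x).filter fun u => LeafOf T u x).card = l at *
    have p1 : ε / 2 * n ≤ l := by linarith
    have p2 : (ε / 2 * n) ^ 2 ≤ (l : ℝ) ^ 2 := by gcongr
    have K1 : (0 : ℝ) ≤ K := Nat.cast_nonneg _
    have p3 : (K : ℝ) * e * n ≤ K * (γ * n) * n := by gcongr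
    have p4 : γ * (4 * (K + 1)) * n ^ 2 ≤ ε ^ 2 * n ^ 2 := by gcongr
    have p5 : 0 ≤ γ * n ^ 2 := by positivity
    exact_mod_cast (by nlinarith : (K : ℝ) * e * n ≤ (l : ℝ) ^ 2)
  have q0 : ((nb T x).filter fun u => LeafOf T u x).Nonempty := by
    rw [← card_pos]
    generalize ((nb T x).filter fun u => LeafOf T u x).card = l at *
    have n1 : (1 : ℝ) ≤ n := by exact_mod_cast (by omega : 1 ≤ n)
    have p1 : ε / 2 * n ≤ l := by linarith
    have p2 : 0 < ε / 2 * n := by positivity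
    exact_mod_cast (by linarith : (0 : ℝ) < l)
  rw [hK] at q2
  obtain ⟨r, hr, hle⟩ := exists_ramsey (F q0 (min (t - 1) e) (by omega)
    (le_trans (by gcongr; exact min_le_right _ _) q2))
  refine ⟨r, hr, ?_⟩
  rcases (by omega : r = 0 ∨ r + 1 + t ≤ 2 * n ∨ r + 2 + e ≤ 2 * n) with b | b | b
  · rw [b, Nat.cast_zero]
    linarith
  · have : (r : ℝ) + 1 + t ≤ 2 * n := by exact_mod_cast b
    linarith
  · have : (r : ℝ) + 2 + e ≤ 2 * n := by exact_mod_cast b
    linarith

end Pool.Agent.Lib.MP_06e9af_co.Twig
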