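import Pool.Agent.Lib.MP_06e9af_co.Twig.Cher

/-! The counting bound with the loss at twigs. -/

set_option autoImplicit false

namespace Pool.Agent.Lib.MP_06e9af_co.Twig

open Finset Pool.Agent.Lib.MP_06e9af_co

variable {α V : Type*} [DecidableEq α] [Fintype α] [Fintype V] {T : SimpleGraph α}
  {R B : SimpleGraph V}

/-- Vertices of degree less than `D` with a leaf neighbour and at most one other kind of neighbour. -/
def Tw (T : SimpleGraph α) (D : ℕ) (c : α) : Prop :=
  (∃ l, LeafOf T l c) ∧ (∃ p, ∀ u, T.Adj c u → u = p ∨ LeafOf T u c) ∧ (nb T c).card < D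

omit [Fintype α] in
lemma rt_closed {U : Finset α} {r : α} (h : RT T U r) : ∀ S : Set α, r ∈ S →
    (∀ u ∈ S, ∀ w ∈ U, T.Adj u w → w ∈ S) → ∀ u ∈ U, u ∈ S := by
  induction h with
  | single r => intro S h1 _ u hu; exact mem_singleton.mp hu ▸ h1
  | graft U1 r' U2 r h1 _ _ ha _ ih1 ih2 =>
    intro S a1 a2 u hu
    rcases mem_union.mp hu with h | h
    · exact ih1 S (a2 r a1 r' (mem_union_left _ h1.root_mem) ha)
        (fun u b w c => a2 u b w (mem_union_left _ c)) u h
    · exact ih2 S a1 (fun u b w c => a2 u b w (mem_union_right _ c)) u h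

open Classical in
lemma rt_loss {D : ℕ} {Λ : ℝ} (h0 : 0 ≤ Λ)
    (hΛ : ∀ (U1 : Finset α) (r r' : α), r ∉ U1 → r' ∈ U1 → (∀ u ∈ U1, T.Adj u r → u = r') →
      (∀ u ∈ U1, u ≠ r' → T.Adj r' u) → 2 ≤ U1.card → U1.card ≤ D →
      ((pivS T R (insert r U1) r).ncard : ℝ) + (pivS T B (insert r U1) r).ncard + 2 * Λ ≤
        2 * (Arr V).ncard)
    {U : Finset α} {r : α} (h : RT T U r) : (∃ w, w ∉ U ∧ T.Adj r w) →
    (∀ u ∈ U, u ≠ r → ∀ w, T.Adj u w → w ∈ U) →
    (((epsS T R U r).ncard : ℝ) + (epsS T B U r).ncard + 2 * (Arr V).ncard +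
      ((U.erase r).filter (Tw T D)).card * Λ ≤ 2 * (U.card * (Arr V).ncard)) ∧
    (U ≠ {r} → ((betS T R U r).ncard : ℝ) + (betS T B U r).ncard + 4 * (Arr V).ncard +
      ((U.erase r).filter (Tw T D)).card * Λ ≤ 2 * (U.card * (Arr V).ncard) + Λ) := by
  induction h with
  | single r => simp [eps_single]
  | graft U1 r' U2 r h1 h2 hd ha he ih1 ih2 =>
    rintro ⟨w, w1, w2⟩ hcl
    have hr : r ∉ U1 := disjoint_right.mp hd h2.root_mem
    have cl1 : ∀ u ∈ U1, ∀ x, T.Adj u x → x ≠ r → x ∈ U1 := fun u hu x hx hne =>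
      (mem_union.mp (hcl u (mem_union_left _ hu) (fun e => hr (e ▸ hu)) x hx)).resolve_right
        fun b => hne (he u hu x b hx).2
    obtain ⟨i1, -⟩ := ih1 ⟨r, hr, ha.symm⟩ fun u hu hne x hx =>
      cl1 u hu x hx fun e => hne (he u hu r h2.root_mem (e ▸ hx)).1
    obtain ⟨i2, i3⟩ := ih2 ⟨w, fun b => w1 (mem_union_right _ b), w2⟩ fun u hu hne x hx =>
      (mem_union.mp (hcl u (mem_union_right _ hu) hne x hx)).resolve_left
        fun b => hne (he x b u hu hx.symm).2
    have hc : ((U1 ∪ U2).card : ℝ) = U1.card + U2.card := by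
      exact_mod_cast card_union_of_disjoint hd
    have a1 : ∀ G : SimpleGraph V, ((betS T G (insert r U1) r).ncard : ℝ) ≤
        (epsS T G U1 r').ncard := fun G => by
      exact_mod_cast graft_leaf (G := G) h1.root_mem h2.root_mem hd he
    have a2 : ∀ (G : SimpleGraph V) (W : Finset α), ((epsS T G W r).ncard : ℝ) ≤
        (betS T G W r).ncard + (pivS T G W r).ncard := fun G W => by
      exact_mod_cast eps_le (T := T) (G := G) W r
    have a3 : ∀ (G : SimpleGraph V) (W : Finset α), ((pivS T G W r).ncard : ℝ) ≤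
        (Arr V).ncard := fun G W => by exact_mod_cast piv_le (T := T) (G := G) W r
    have a4 : ∀ G : SimpleGraph V, ((betS T G (U1 ∪ U2) r).ncard : ℝ) ≤
        (epsS T G (insert r U1) r).ncard + (betS T G U2 r).ncard := fun G => by
      exact_mod_cast (graft_split (G := G) h2.root_mem hd he).1
    have a5 : ∀ G : SimpleGraph V, ((betS T G (U1 ∪ U2) r).ncard : ℝ) ≤
        (epsS T G U2 r).ncard + (betS T G (insert r U1) r).ncard := fun G => by
      exact_mod_cast (graft_split (G := G) h2.root_mem hd he).2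
    have t0 : ∀ c : ℕ, (Tw T D r' → 1 ≤ c) →
        ((((U1 ∪ U2).erase r).filter (Tw T D)).card : ℝ) * Λ ≤
          ((U1.erase r').filter (Tw T D)).card * Λ + ((U2.erase r).filter (Tw T D)).card * Λ +
            c * Λ := fun c hc => by
      rw [← add_mul, ← add_mul]
      refine mul_le_mul_of_nonneg_right ?_ h0
      have b1 : ((U1 ∪ U2).erase r).filter (Tw T D) ⊆ ((U1.erase r').filter (Tw T D) ∪
          (U2.erase r).filter (Tw T D)) ∪ ({r'} : Finset α).filter (Tw T D) := fun u hu => by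
        obtain ⟨c1, c2⟩ := mem_filter.mp hu
        obtain ⟨c3, c4⟩ := mem_erase.mp c1
        by_cases e : u = r'
        · exact mem_union_right _ (mem_filter.mpr ⟨mem_singleton.mpr e, c2⟩)
        · exact mem_union_left _ ((mem_union.mp c4).elim
            (fun b => mem_union_left _ (mem_filter.mpr ⟨mem_erase.mpr ⟨e, b⟩, c2⟩))
            fun b => mem_union_right _ (mem_filter.mpr ⟨mem_erase.mpr ⟨c3, b⟩, c2⟩))
      have b2 : (({r'} : Finset α).filter (Tw T D)).card ≤ c := by
        rw [filter_singleton]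
        split_ifs with b
        · simpa using hc b
        · simp
      exact_mod_cast (card_le_card b1).trans ((card_union_le _ _).trans
        (Nat.add_le_add (card_union_le _ _) b2))
    rw [hc, add_mul]
    by_cases ht : Tw T D r'
    · obtain ⟨⟨l, l1⟩, ⟨p, p1⟩, p2⟩ := id ht
      have nl : ¬ LeafOf T r r' := fun b => w1 (b.2 w w2 ▸ mem_union_left _ h1.root_mem)
      have hp : ∀ u, T.Adj r' u → u ≠ r → LeafOf T u r' := fun u a b =>
        (p1 u a).resolve_left fun e => b (e.trans ((p1 r ha.symm).resolve_right nl).symm)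
      have st : ∀ u ∈ U1, u ≠ r' → T.Adj r' u := fun u hu hne =>
        (rt_closed h1 {u | u = r' ∨ (T.Adj r' u ∧ u ≠ r)} (Or.inl rfl) (by
          rintro x (rfl | ⟨b1, b2⟩) y hy b
          · exact Or.inr ⟨b, fun e => hr (e ▸ hy)⟩
          · exact Or.inl ((hp x b1 b2).2 y b)) u hu).resolve_left hne |>.1
      have c1 : 2 ≤ U1.card := one_lt_card.mpr ⟨r', h1.root_mem, l,
        cl1 r' h1.root_mem l l1.1.symm (fun e => nl (e ▸ l1)), l1.1.ne.symm⟩
      have c2 : U1.card ≤ D := by
        have := card_le_card (show U1.erase r' ⊆ nb T r' from fun u hu =>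
          mem_nb.mpr (st u (mem_of_mem_erase hu) (ne_of_mem_erase hu)))
        rw [card_erase_of_mem h1.root_mem] at this
        omega
      have b1 := hΛ U1 r r' hr h1.root_mem (fun u hu b => (he u hu r h2.root_mem b).1) st c1 c2
      have t1 := t0 1 fun _ => le_rfl
      rw [Nat.cast_one, one_mul] at t1
      by_cases hU : U2 = {r}
      · have e : U1 ∪ U2 = insert r U1 := by rw [hU]; ext; simp
        rw [e] at t1 ⊢
        rw [hU] at t1 ⊢
        simp only [erase_singleton, filter_empty, card_empty, Nat.cast_zero, zero_mul, add_zero,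
          card_singleton, Nat.cast_one, one_mul] at t1 ⊢
        exact ⟨by linarith [a1 R, a1 B, a2 R (insert r U1), a2 B (insert r U1)],
          fun _ => by linarith [a1 R, a1 B]⟩
      · have := i3 hU
        refine ⟨?_, fun _ => ?_⟩
        · linarith [a1 R, a1 B, a2 R (insert r U1), a2 B (insert r U1), a4 R, a4 B,
            a2 R (U1 ∪ U2), a2 B (U1 ∪ U2), a3 R (U1 ∪ U2), a3 B (U1 ∪ U2)]
        · linarith [a1 R, a1 B, a2 R (insert r U1), a2 B (insert r U1), a4 R, a4 B]
    · have t1 := t0 0 fun b => absurd b ht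
      rw [Nat.cast_zero, zero_mul] at t1
      refine ⟨?_, fun _ => by linarith [a1 R, a1 B, a5 R, a5 B]⟩
      linarith [a1 R, a1 B, a5 R, a5 B, a2 R (U1 ∪ U2), a2 B (U1 ∪ U2), a3 R (U1 ∪ U2),
        a3 B (U1 ∪ U2)]

lemma mk_le (hT : T.IsTree) {y x : α} (hl : LeafOf T y x) {G : SimpleGraph V} (hG : ¬ Cp T G) :
    (Mk G).ncard + 2 * (Arr V).ncard ≤ Fintype.card α * (Arr V).ncard := by
  obtain ⟨h, par, P⟩ := exists_PS hT x
  have := ((P.rt_leaf hl).bound (G := G)).1
  rw [← mk_eq_eps hl hG, card_erase_of_mem (mem_univ _), card_univ] at this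
  obtain ⟨k, hk⟩ : ∃ k, Fintype.card α = k + 1 :=
    ⟨Fintype.card α - 1, by have := Fintype.card_pos_iff.mpr ⟨x⟩; omega⟩
  rw [hk, Nat.add_sub_cancel] at this
  rw [hk, add_mul]
  omega

lemma small (hT : T.IsTree) {y x : α} (hl : LeafOf T y x) (hc : Col R B) (hR : ¬ Cp T R)
    (hB : ¬ Cp T B) : Fintype.card V + 3 ≤ 2 * Fintype.card α ∨ Fintype.card V = 0 := by
  have t := mk_total (R := R) (B := B) fun u w h => or_iff_not_imp_right.mpr (hc.red h)
  have a1 := mk_le hT hl hR
  have a2 := mk_le hT hl hB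
  have : (Fintype.card V - 1 + 4) * (Arr V).ncard ≤ (2 * Fintype.card α) * (Arr V).ncard := by
    rw [add_mul, mul_assoc]
    omega
  have := Nat.le_of_mul_le_mul_right this arr_pos
  omega

open Classical in
lemma large (hT : T.IsTree) {y x : α} (hl : LeafOf T y x) (hc : Col R B) (hR : ¬ Cp T R)
    (hB : ¬ Cp T B) {D : ℕ} (hN : 20 * (D + 3) ≤ Fintype.card V)
    (hn : 3 * Fintype.card α ≤ 2 * Fintype.card V) :
    (Fintype.card V : ℝ) + 3 + ((univ.filter (Tw T D)).card - 2) / (100 * 20 ^ D * D.factorial) ≤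
      2 * Fintype.card α := by
  have hd : ∀ G : SimpleGraph V, ¬ Cp T G →
      3 * ∑ a, (nb G a).card ≤ 2 * Fintype.card V ^ 2 := fun G hG => by
    have a1 := (deg_mk G).trans (Nat.mul_le_mul_left _ (le_of_add_le_left (mk_le hT hl hG)))
    rw [← mul_assoc] at a1
    have := Nat.le_of_mul_le_mul_right a1 arr_pos
    nlinarith [Nat.mul_le_mul_left (Fintype.card V) hn]
  have hC := many_ch hc (by omega) (hd R hR) (hd B hB)
  obtain ⟨h, par, P⟩ := exists_PS hT x
  have ha : (0 : ℝ) < (Arr V).ncard := by exact_mod_cast arr_pos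
  obtain ⟨b, -⟩ := rt_loss (R := R) (B := B) (D := D)
    (Λ := (Arr V).ncard / (100 * 20 ^ D * D.factorial)) (by positivity)
    (fun U1 r r' a1 a2 a3 a4 a5 a6 => by
      have := piv_two (R := R) (B := B) P.tri a1 a2 a3 a4 a5 a6 hN hC
      have e : 2 * (((Arr V).ncard : ℝ) / (100 * 20 ^ D * D.factorial)) =
          (Arr V).ncard / (50 * 20 ^ D * D.factorial) := by
        field_simp
        ring
      rwa [e]) (P.rt_leaf hl) ⟨y, notMem_erase _ _, hl.1.symm⟩
    fun u _ hne w hw => mem_erase.mpr ⟨fun e => hne (hl.2 u (e ▸ hw.symm)), mem_univ _⟩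
  rw [← mk_eq_eps hl hR, ← mk_eq_eps hl hB, card_erase_of_mem (mem_univ _), card_univ,
    Nat.cast_sub (Fintype.card_pos_iff.mpr ⟨x⟩)] at b
  have t : (((Fintype.card V - 1 : ℕ) : ℝ)) * (Arr V).ncard ≤ (Mk R).ncard + (Mk B).ncard := by
    exact_mod_cast mk_total (R := R) (B := B) fun u w h => or_iff_not_imp_right.mpr (hc.red h)
  rw [Nat.cast_sub (by omega)] at t
  have c : ((univ.filter (Tw T D)).card : ℝ) - 2 ≤
      (((univ.erase y).erase x).filter (Tw T D)).card := by
    rw [filter_erase, filter_erase, sub_le_iff_le_add]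
    have := pred_card_le_card_erase (s := univ.filter (Tw T D)) (a := y)
    have := pred_card_le_card_erase (s := (univ.filter (Tw T D)).erase y) (a := x)
    exact_mod_cast (by omega)
  have c' := mul_le_mul_of_nonneg_right c
    (show (0 : ℝ) ≤ (Arr V).ncard / (100 * 20 ^ D * D.factorial) by positivity)
  refine le_of_mul_le_mul_right ?_ ha
  rw [add_mul, div_mul_eq_mul_div, mul_div_assoc]
  push_cast at b t
  linarith

end Pool.Agent.Lib.MP_06e9af_co.Twig
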