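import Pool.Agent.Lib.MP_06e9af_co.Twig.Pref

/-! Orderings that are lost at a twig. -/

set_option autoImplicit false

namespace Pool.Agent.Lib.MP_06e9af_co.Twig

open Finset Pool.Agent.Lib.MP_06e9af_co

variable {α V : Type*} [DecidableEq α] [Fintype V] [DecidableEq V] {T : SimpleGraph α}
  {G : SimpleGraph V}

omit [Fintype V] [DecidableEq V] in
lemma broom_emb (htri : ∀ a b c, T.Adj a b → T.Adj b c → ¬ T.Adj a c)
    {U1 : Finset α} {r r' : α} (hr : r ∉ U1) (hr' : r' ∈ U1)
    (he : ∀ u ∈ U1, T.Adj u r → u = r') (hstar : ∀ u ∈ U1, u ≠ r' → T.Adj r' u)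
    {v a : V} {B : Finset V} (hva : G.Adj v a) (hB : ∀ x ∈ B, x ≠ v ∧ G.Adj a x)
    (hc : U1.card ≤ B.card + 1) {P : List V} (ha : a ∈ P) (hP : ∀ x ∈ B, x ∈ P) :
    Emb T G (insert r U1) r v P := by
  obtain ⟨e, he1, he2⟩ := exists_inj (U1.erase r') B v (by rw [card_erase_of_mem hr']; omega)
  refine (emb_leaf (P := B.toList) hr hr' he hva (fun h => (hB v (mem_toList.mp h)).1 rfl) ?_).mono
    fun u hu => (List.mem_cons.mp hu).elim (fun h => h ▸ ha) fun h => hP u (mem_toList.mp h)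
  have hadj : ∀ u ∈ U1, u ≠ r' → G.Adj a (e u) := fun u hu hur =>
    (hB _ (he2 u (mem_erase.mpr ⟨hur, hu⟩))).2
  refine ⟨Function.update e r' a, ?_, by simp, ?_, ?_⟩
  · intro x hx y hy hxy
    by_cases hx' : x = r' <;> by_cases hy' : y = r'
    · rw [hx', hy']
    · rw [hx', Function.update_self, Function.update_of_ne hy'] at hxy
      exact absurd hxy (hadj y hy hy').ne
    · rw [hy', Function.update_self, Function.update_of_ne hx'] at hxy
      exact absurd hxy.symm (hadj x hx hx').ne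
    · rw [Function.update_of_ne hx', Function.update_of_ne hy'] at hxy
      exact he1 x (mem_erase.mpr ⟨hx', hx⟩) y (mem_erase.mpr ⟨hy', hy⟩) hxy
  · intro u hu hur
    rw [Function.update_of_ne hur]
    exact mem_toList.mpr (he2 u (mem_erase.mpr ⟨hur, hu⟩))
  · intro x hx y hy hxy
    by_cases hx' : x = r' <;> by_cases hy' : y = r'
    · rw [hx', hy'] at hxy; exact absurd hxy (T.loopless.irrefl _)
    · rw [hx', Function.update_self, Function.update_of_ne hy']; exact hadj y hy hy'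
    · rw [hy', Function.update_self, Function.update_of_ne hx']; exact (hadj x hx hx').symm
    · exact absurd hxy (fun h => htri x r' y (hstar x hx hx').symm (hstar y hy hy') h)

open Classical in
/-- Induced paths on three vertices with a centre of large degree. -/
noncomputable def Ch (G : SimpleGraph V) : Finset (V × V × V) :=
  univ.filter fun t => G.Adj t.1 t.2.1 ∧ G.Adj t.1 t.2.2 ∧ t.2.1 ≠ t.2.2 ∧ ¬ G.Adj t.2.1 t.2.2 ∧
    Fintype.card V ≤ 10 * (nb G t.1).card

lemma mem_Ch {t : V × V × V} : t ∈ Ch G ↔ G.Adj t.1 t.2.1 ∧ G.Adj t.1 t.2.2 ∧ t.2.1 ≠ t.2.2 ∧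
    ¬ G.Adj t.2.1 t.2.2 ∧ Fintype.card V ≤ 10 * (nb G t.1).card := by
  simp [Ch]

/-- Beginnings of lost orderings. -/
noncomputable def Lost (G : SimpleGraph V) (j : ℕ) : Finset (List V) :=
  ((Ch G).sigma fun t => powersetCard j (((nb G t.1).erase t.2.1).erase t.2.2)).image
    fun s => s.1.2.1 :: s.1.1 :: (s.2.toList ++ [s.1.2.2])

lemma mem_GL {j : ℕ} {p : List V} (hp : p ∈ Lost G j) : ∃ (v a b : V) (B : Finset V),
    p = v :: a :: (B.toList ++ [b]) ∧ G.Adj a v ∧ G.Adj a b ∧ v ≠ b ∧ ¬ G.Adj v b ∧ B.card = j ∧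
      ∀ x ∈ B, x ≠ b ∧ x ≠ v ∧ G.Adj a x := by
  obtain ⟨⟨⟨a, v, b⟩, B⟩, h, rfl⟩ := mem_image.mp hp
  obtain ⟨h1, h2⟩ := mem_sigma.mp h
  obtain ⟨a1, a2, a3, a4, -⟩ := mem_Ch.mp h1
  obtain ⟨b1, b2⟩ := mem_powersetCard.mp h2
  exact ⟨v, a, b, B, rfl, a1, a2, a3, a4, b2, fun x hx => by simpa using b1 hx⟩

lemma GL_ok {j : ℕ} : ∀ p ∈ Lost G j, p.Nodup ∧ p.length = j + 3 := fun p hp => by
  obtain ⟨v, a, b, B, rfl, a1, a2, a3, -, a5, a6⟩ := mem_GL hp
  refine ⟨?_, by simp [a5]⟩
  have hBn := B.nodup_toList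
  simp only [List.nodup_cons, List.mem_cons, List.mem_append, mem_toList,
    List.not_mem_nil, or_false, not_or, List.nodup_append, ne_eq, forall_eq, not_false_eq_true,
    List.nodup_nil, and_self, true_and]
  exact ⟨⟨a1.ne.symm, fun h => (a6 v h).2.1 rfl, a3⟩, ⟨fun h => (a6 a h).2.2.ne rfl, a2.ne⟩,
    hBn, fun x hx => (a6 x hx).1⟩

lemma GL_card (j : ℕ) : (Ch G).card * (Fintype.card V / 10 - 2).choose j ≤ (Lost G j).card := by
  rw [Lost, card_image_of_injective _ ?_, card_sigma, ← smul_eq_mul]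
  · refine card_nsmul_le_sum _ _ _ fun t ht => ?_
    rw [card_powersetCard]
    refine Nat.choose_le_choose _ ?_
    have := pred_card_le_card_erase (s := nb G t.1) (a := t.2.1)
    have := pred_card_le_card_erase (s := (nb G t.1).erase t.2.1) (a := t.2.2)
    have := (mem_Ch.mp ht).2.2.2.2
    omega
  · rintro ⟨⟨a, v, b⟩, B⟩ ⟨⟨a', v', b'⟩, B'⟩ h
    simp only [List.cons.injEq] at h
    obtain ⟨rfl, rfl, h⟩ := h
    obtain ⟨h1, h2⟩ := List.append_inj' h rfl
    obtain rfl : b = b' := by simpa using h2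
    obtain rfl : B = B' := by simpa using congrArg List.toFinset h1
    rfl

lemma piv_loss (htri : ∀ a b c, T.Adj a b → T.Adj b c → ¬ T.Adj a c)
    {U1 : Finset α} {r r' : α} (hr : r ∉ U1) (hr' : r' ∈ U1)
    (he : ∀ u ∈ U1, T.Adj u r → u = r') (hstar : ∀ u ∈ U1, u ≠ r' → T.Adj r' u)
    {j : ℕ} (hj : U1.card = j + 2) :
    (pivS T G (insert r U1) r).ncard + ((AA V).filter fun l => l.take (j + 3) ∈ Lost G j).card ≤
      (Arr V).ncard := by
  have h1 := piv_le_of (T := T) (G := G) (insert r U1) r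
    ((AA V).filter fun l => ¬ l.take (j + 3) ∈ Lost G j : Finset _)
    (fun l hl => mem_AA.mp (mem_filter.mp hl).1) (by
      rintro ⟨v', P, w, Q⟩ ⟨⟨q0, q1⟩, q2, q3⟩
      refine mem_coe.mpr (mem_filter.mpr ⟨mem_AA.mpr q0, fun h => ?_⟩)
      obtain ⟨v, a, b, B, hq, a1, a2, a3, a4, a5, a6⟩ := mem_GL h
      have hlen := q3.card_le
      rw [erase_insert hr, List.length_cons] at hlen
      simp only [flat, List.take_succ_cons, List.cons.injEq] at q1 q2 hlen hq
      obtain ⟨rfl, hq⟩ := hq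
      by_cases c : j + 2 ≤ P.length
      · rw [List.take_append_of_le_length c] at hq
        have hm : ∀ x ∈ a :: (B.toList ++ [b]), x ∈ P := fun x hx =>
          List.mem_of_mem_take (hq ▸ hx)
        refine q2 (broom_emb htri hr hr' he hstar (B := insert b B) a1.symm (fun x hx => ?_)
          (by rw [card_insert_of_notMem fun h => (a6 b h).1 rfl]; omega) (hm a (by simp))
          fun x hx => hm x (by simp at hx ⊢; tauto))
        rcases mem_insert.mp hx with rfl | hx
        · exact ⟨a3.symm, a2⟩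
        · exact (a6 x hx).2
      · have e : j + 2 = P.length + 1 := by omega
        rw [e, List.take_append, List.take_of_length_le (by omega), Nat.add_sub_cancel_left,
          List.take_succ_cons, List.take_zero, ← List.cons_append] at hq
        have := (List.append_inj' hq rfl).2
        simp only [List.cons.injEq, and_true] at this
        exact a4 (this ▸ q1))
  rw [Set.ncard_coe_finset] at h1
  have := card_filter_add_card_filter_not (s := AA V) fun l => l.take (j + 3) ∈ Lost G j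
  rw [card_AA] at this
  omega

lemma pow_le_ch {N j D : ℕ} (hj : j ≤ D) (hN : 20 * (D + 3) ≤ N) :
    N ^ j ≤ 20 ^ D * D.factorial * (N / 10 - 2).choose j := by
  have h1 := Nat.pow_sub_le_descFactorial (N / 10 - 2) j
  rw [Nat.descFactorial_eq_factorial_mul_choose] at h1
  calc N ^ j ≤ (20 * (N / 10 - 2 + 1 - j)) ^ j := Nat.pow_le_pow_left (by omega) _
    _ ≤ 20 ^ j * (j.factorial * (N / 10 - 2).choose j) := by
      rw [mul_pow]; exact Nat.mul_le_mul_left _ h1
    _ ≤ 20 ^ D * (D.factorial * (N / 10 - 2).choose j) :=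
      Nat.mul_le_mul (Nat.pow_le_pow_right (by omega) hj)
        (Nat.mul_le_mul_right _ (Nat.factorial_le hj))
    _ = _ := (mul_assoc _ _ _).symm

lemma piv_two {R B : SimpleGraph V} (htri : ∀ a b c, T.Adj a b → T.Adj b c → ¬ T.Adj a c)
    {U1 : Finset α} {r r' : α} (hr : r ∉ U1) (hr' : r' ∈ U1)
    (he : ∀ u ∈ U1, T.Adj u r → u = r') (hstar : ∀ u ∈ U1, u ≠ r' → T.Adj r' u)
    {D : ℕ} (h2 : 2 ≤ U1.card) (hD : U1.card ≤ D) (hN : 20 * (D + 3) ≤ Fintype.card V)
    (hC : Fintype.card V ^ 3 ≤ 50 * ((Ch R).card + (Ch B).card)) :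
    ((pivS T R (insert r U1) r).ncard : ℝ) + (pivS T B (insert r U1) r).ncard +
      (Arr V).ncard / (50 * 20 ^ D * D.factorial) ≤ 2 * (Arr V).ncard := by
  obtain ⟨j, hj⟩ : ∃ j, U1.card = j + 2 := ⟨U1.card - 2, by omega⟩
  have a1 := piv_loss (G := R) htri hr hr' he hstar hj
  have a2 := piv_loss (G := B) htri hr hr' he hstar hj
  have b1 := (Nat.mul_le_mul_right _ (GL_card (G := R) j)).trans
    (pre_count (h := j + 3) (by omega) (Lost R j) GL_ok)
  have b2 := (Nat.mul_le_mul_right _ (GL_card (G := B) j)).trans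
    (pre_count (h := j + 3) (by omega) (Lost B j) GL_ok)
  have c1 := Nat.mul_le_mul_right (Arr V).ncard
    (Nat.mul_le_mul (pow_le_ch (j := j) (by omega) hN) hC)
  rw [← pow_add] at c1
  generalize ((AA V).filter fun l => l.take (j + 3) ∈ Lost R j).card = x at *
  generalize ((AA V).filter fun l => l.take (j + 3) ∈ Lost B j).card = y at *
  have c2 : Fintype.card V ^ (j + 3) * (Arr V).ncard ≤
      Fintype.card V ^ (j + 3) * (50 * 20 ^ D * D.factorial * (x + y)) := by
    have := Nat.mul_le_mul_left (50 * 20 ^ D * D.factorial) (Nat.add_le_add b1 b2)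
    refine c1.trans (le_of_eq_of_le ?_ (this.trans (le_of_eq ?_))) <;> ring
  have c3 := Nat.le_of_mul_le_mul_left c2 (Nat.pow_pos (by omega))
  have c4 : ((Arr V).ncard : ℝ) / (50 * 20 ^ D * D.factorial) ≤ x + y := by
    rw [div_le_iff₀' (by positivity)]
    exact_mod_cast c3
  have c5 : ((pivS T R (insert r U1) r).ncard : ℝ) + x ≤ (Arr V).ncard := by exact_mod_cast a1
  have c6 : ((pivS T B (insert r U1) r).ncard : ℝ) + y ≤ (Arr V).ncard := by exact_mod_cast a2
  linarith

end Pool.Agent.Lib.MP_06e9af_co.Twig
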