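import Pool.Agent.Lib.MP_06e9af_co.Final

/-! Orderings with a given beginning. -/

set_option autoImplicit false

namespace Pool.Agent.Lib.MP_06e9af_co.Twig

open Finset Pool.Agent.Lib.MP_06e9af_co

variable {V : Type*} [Fintype V] [DecidableEq V]

/-- All orderings. -/
noncomputable def AA (V : Type*) [Fintype V] : Finset (List V) := (arr_finite (V := V)).toFinset

omit [DecidableEq V] in
lemma mem_AA {l : List V} : l ∈ AA V ↔ l ∈ Arr V := Set.Finite.mem_toFinset _

omit [DecidableEq V] in
lemma card_AA : (AA V).card = (Arr V).ncard := (Set.ncard_eq_toFinset_card _ _).symm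

omit [DecidableEq V] in
lemma arr_pos : 0 < (Arr V).ncard :=
  (Set.ncard_pos arr_finite).mpr ⟨univ.toList, nodup_toList _, fun u => by simp⟩

lemma pre_one {h : ℕ} {p p' : List V} (hp : p.Nodup) (hp' : p'.Nodup) (hl : p.length = p'.length) :
    ((AA V).filter fun l => l.take h = p).card ≤ ((AA V).filter fun l => l.take h = p').card := by
  obtain ⟨σ, hσ⟩ := Equiv.Perm.exists_extending_pair (fun i : Fin p.length => p.get i)
    (fun i : Fin p.length => p'.get (i.cast hl)) (List.nodup_iff_injective_get.mp hp)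
    ((List.nodup_iff_injective_get.mp hp').comp (Fin.cast_injective hl))
  have e : p.map σ = p' := List.ext_getElem (by simpa using hl) fun i h1 h2 => by
    simpa using hσ ⟨i, by simpa using h1⟩
  refine card_le_card_of_injOn (List.map σ) (fun l hl => ?_)
    (List.map_injective_iff.mpr σ.injective).injOn
  obtain ⟨h1, h2⟩ := mem_filter.mp hl
  rw [mem_AA] at h1
  refine mem_coe.mpr (mem_filter.mpr ⟨mem_AA.mpr ⟨h1.1.map σ.injective, fun u => ?_⟩, ?_⟩)
  · exact List.mem_map.mpr ⟨σ.symm u, h1.2 _, by simp⟩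
  · rw [← List.map_take, h2, e]

lemma pre_count {h : ℕ} (hh : h ≤ Fintype.card V) (L : Finset (List V))
    (hL : ∀ p ∈ L, p.Nodup ∧ p.length = h) :
    L.card * (Arr V).ncard ≤ Fintype.card V ^ h * ((AA V).filter fun l => l.take h ∈ L).card := by
  have hK : ∀ k ∈ (AA V).image (List.take h), k.Nodup ∧ k.length = h := fun k hk => by
    obtain ⟨l, h1, rfl⟩ := mem_image.mp hk
    rw [mem_AA] at h1
    exact ⟨h1.1.sublist (List.take_sublist _ _), by rw [List.length_take, arr_length h1]; omega⟩
  have h1 : ((AA V).image (List.take h)).card ≤ Fintype.card V ^ h := by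
    refine (card_le_card (t := univ.image (List.ofFn (n := h))) fun k hk => ?_).trans
      (card_image_le.trans (by simp))
    obtain ⟨-, rfl⟩ := hK k hk
    exact mem_image.mpr ⟨k.get, mem_univ _, List.ofFn_get k⟩
  rw [← sum_card_fiberwise_eq_card_filter, mul_sum, ← smul_eq_mul, ← card_AA]
  refine card_nsmul_le_sum _ _ _ fun p hp => ?_
  refine (card_le_mul_card_image (f := List.take h) _ _ fun k hk =>
    pre_one (hK k hk).1 (hL p hp).1 ((hK k hk).2.trans (hL p hp).2.symm)).trans ?_
  rw [mul_comm]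
  exact Nat.mul_le_mul_right _ h1

lemma deg_mk (G : SimpleGraph V) :
    (∑ v, (nb G v).card) * (Arr V).ncard ≤ Fintype.card V * (Mk G).ncard := by
  have h1 : (univ.sigma fun v => nb G v ×ˢ (AA V).filter fun l => l.take 1 ∈ ({[v]} : Finset _)).card
      ≤ (Mk G).ncard := by
    rw [← Set.ncard_coe_finset]
    refine ncard_le_of_rel (mk_finite G)
      (fun p q => q.1 = p.1 ∧ q.2.2.1 = p.2.1 ∧ flat q = p.2.2) ?_ ?_
    · rintro ⟨v, w, l⟩ hp
      simp only [coe_sigma, Set.mem_sigma_iff, coe_univ, Set.mem_univ, true_and, mem_coe,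
        mem_product, mem_nb, mem_filter, mem_AA, mem_singleton] at hp
      obtain ⟨a1, a2, a3⟩ := hp
      obtain ⟨l', rfl⟩ : ∃ l', l = v :: l' := by
        cases l with
        | nil => simp at a3
        | cons x l' => exact ⟨l', by simpa using a3⟩
      obtain ⟨P, Q, rfl⟩ := List.append_of_mem
        ((List.mem_cons.mp (a2.2 w)).resolve_left a1.ne.symm)
      exact ⟨(v, P, w, Q), ⟨a2, a1⟩, rfl, rfl, rfl⟩
    · rintro ⟨v, w, l⟩ - ⟨v', w', l'⟩ - q ⟨a1, a2, a3⟩ ⟨b1, b2, b3⟩
      simp only at a1 a2 a3 b1 b2 b3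
      subst a1 a2 a3
      subst b1 b2 b3
      rfl
  refine le_trans ?_ (Nat.mul_le_mul_left _ h1)
  rw [card_sigma, sum_mul, mul_sum]
  refine sum_le_sum fun v _ => ?_
  have := pre_count (h := 1) (Fintype.card_pos_iff.mpr ⟨v⟩) {[v]} (by simp)
  rw [card_singleton, one_mul, pow_one] at this
  rw [card_product, mul_left_comm]
  exact Nat.mul_le_mul_left _ this

end Pool.Agent.Lib.MP_06e9af_co.Twig
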